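import Pool.Agent.Helper73.LL.Goals

/-! MP_75608d_al, packet LL-NCD: `S_NCC` and `S_ND`. -/

namespace Pool.Agent.Helper22.LL

open Real Pool.Agent.Helper73.LL

section
variable {n : ℕ} {L ell e θ x : ℝ} {p r N q l r1 F1 F2 f : ℕ}

theorem xV_le_one (hx : 0 ≤ x) (hx1 : x ≤ 1) : xV x ≤ 1 := by
  unfold xV
  nlinarith

theorem p_large (h : NC n L ell e θ x p r N q l r1 F1 F2 f) : (1000 : ℝ) ≤ p := by
  have h1 := h.hp2
  have h2 : (10000 : ℝ) ≤ L - ell := by
    have := h.hell2; have := h.hL; nlinarith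
  have h3 := Real.add_one_le_exp (L - ell)
  linarith

theorem N_le (h : NC n L ell e θ x p r N q l r1 F1 F2 f) : (N : ℝ) ≤ 8 * exp (ell / 4) := by
  have hp := p_large h
  have h1 : (N : ℝ) * p ≤ 4 * r := by exact_mod_cast h.hN2
  have h2 := h.hr
  have h3 : exp (L - 3 / 4 * ell) = exp (L - ell) * exp (ell / 4) := by
    rw [← exp_add]; congr 1; ring
  have h4 := h.hp2
  have h5 : (0 : ℝ) < exp (ell / 4) := exp_pos _
  have h6 : (N : ℝ) * p ≤ 8 * exp (ell / 4) * p := by
    calc (N : ℝ) * p ≤ 4 * r := h1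
      _ ≤ 4 * (exp (L - ell) * exp (ell / 4)) := by rw [← h3]; linarith
      _ ≤ 4 * ((2 * p) * exp (ell / 4)) := by
          have := mul_le_mul_of_nonneg_right h4 h5.le
          linarith
      _ = 8 * exp (ell / 4) * p := by ring
  exact le_of_mul_le_mul_right h6 (by linarith)

theorem N_le_r (h : NC n L ell e θ x p r N q l r1 F1 F2 f) : (N : ℝ) * 250 ≤ r := by
  have hp := p_large h
  have h1 : (N : ℝ) * p ≤ 4 * r := by exact_mod_cast h.hN2
  have hN : (0 : ℝ) ≤ N := Nat.cast_nonneg _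
  nlinarith

theorem rhs_lower (h : NC n L ell e θ x p r N q l r1 F1 F2 f) :
    exp (-((r : ℝ) * ell) / 30) ≤
      ((1 - xV x * e / 2) ^ (4 * l) / 8) ^ N * (exp (-(θ ^ 2 * (r * ell) / 20000)) / 4) := by
  have he := h.he
  have he1 := h.he1
  have hx1 : x ≤ 1 := by
    have h1 := h.hx1
    have h2 := h.hθ
    have h3 := h.hell
    have h4 := h.hL
    have h5 : 0 ≤ θ := by
      by_contra hc
      push Not at hc
      nlinarith
    linarith
  have hV := xV_le_one h.hx hx1
  have hbase : 1 - e / 2 ≤ 1 - xV x * e / 2 := by nlinarith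
  have hpos : 0 < 1 - e / 2 := by linarith
  -- epsilon
  set ε := -Real.log (1 - e / 2) with hε
  have hexpε : exp (-ε) = 1 - e / 2 := by rw [hε, neg_neg, Real.exp_log hpos]
  have hεle : ε ≤ e := by
    have h1 : 1 - (1 - e / 2)⁻¹ ≤ Real.log (1 - e / 2) := Real.one_sub_inv_le_log_of_pos hpos
    have h2 : (1 - e / 2)⁻¹ ≤ 1 + e := by
      rw [inv_le_comm₀ hpos (by linarith), inv_eq_one_div, div_le_iff₀ (by linarith)]
      nlinarith
    rw [hε]; linarith
  have h4l : 4 * (l : ℝ) * ε ≤ 2 * r1 * L + 0.02 := by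
    have h1 := h.hl2
    rw [← hε] at h1
    nlinarith
  have hpow : exp (-(2 * r1 * L + 0.02)) ≤ (1 - xV x * e / 2) ^ (4 * l) := by
    calc exp (-(2 * r1 * L + 0.02)) ≤ exp (-(4 * (l : ℝ) * ε)) := by
          apply exp_le_exp.mpr; linarith
      _ = (1 - e / 2) ^ (4 * l) := by
          rw [← hexpε, ← exp_nat_mul]
          congr 1
          push_cast
          ring
      _ ≤ (1 - xV x * e / 2) ^ (4 * l) := pow_le_pow_left₀ hpos.le hbase _
  have h8 : exp (-(21 / 10 : ℝ)) ≤ 1 / 8 := by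
    have h1 : (8 : ℝ) ≤ exp (21 / 10) := by
      have h2 : Real.log 2 < 0.6931471808 := Real.log_two_lt_d9
      have h3 : (8 : ℝ) = exp (3 * Real.log 2) := by
        rw [show (3 : ℝ) * Real.log 2 = Real.log 2 + Real.log 2 + Real.log 2 by ring, exp_add,
          exp_add, Real.exp_log (by norm_num)]
        norm_num
      rw [h3]
      apply exp_le_exp.mpr
      linarith
    rw [exp_neg, inv_eq_one_div]
    exact one_div_le_one_div_of_le (by norm_num) h1
  have h4 : exp (-(2 : ℝ)) ≤ 1 / 4 := by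
    have h1 : (4 : ℝ) ≤ exp 2 := by
      have h2 : Real.log 2 < 0.6931471808 := Real.log_two_lt_d9
      have h3 : (4 : ℝ) = exp (2 * Real.log 2) := by
        rw [show (2 : ℝ) * Real.log 2 = Real.log 2 + Real.log 2 by ring, exp_add,
          Real.exp_log (by norm_num)]
        norm_num
      rw [h3]
      apply exp_le_exp.mpr
      linarith
    rw [exp_neg, inv_eq_one_div]
    exact one_div_le_one_div_of_le (by norm_num) h1
  have hA : exp (-(2 * r1 * L + 0.02) - 21 / 10) ≤ (1 - xV x * e / 2) ^ (4 * l) / 8 := by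
    have : exp (-(2 * r1 * L + 0.02) - 21 / 10) =
        exp (-(2 * r1 * L + 0.02)) * exp (-(21 / 10 : ℝ)) := by
      rw [← exp_add]; rfl
    rw [this]
    refine le_trans (mul_le_mul hpow h8 (exp_pos _).le (le_trans (exp_pos _).le hpow)) ?_
    exact le_of_eq (by ring)
  have hAN : exp (N * (-(2 * r1 * L + 0.02) - 21 / 10)) ≤
      ((1 - xV x * e / 2) ^ (4 * l) / 8) ^ N := by
    rw [exp_nat_mul]
    exact pow_le_pow_left₀ (exp_pos _).le hA _
  have hB : exp (-(θ ^ 2 * (r * ell) / 20000) - 2) ≤ exp (-(θ ^ 2 * (r * ell) / 20000)) / 4 := by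
    have : exp (-(θ ^ 2 * (r * ell) / 20000) - 2) =
        exp (-(θ ^ 2 * (r * ell) / 20000)) * exp (-(2 : ℝ)) := by
      rw [← exp_add]; rfl
    rw [this]
    refine le_trans (mul_le_mul_of_nonneg_left h4 (exp_pos _).le) ?_
    exact le_of_eq (by ring)
  refine le_trans ?_ (mul_le_mul hAN hB (exp_pos _).le (le_trans (exp_pos _).le hAN))
  rw [← exp_add]
  apply exp_le_exp.mpr
  have hr1 := h.hr1
  have hNr := N_le_r h
  have hθ1 := h.hθ1
  have hθ0 : 0 ≤ θ := by
    have h2 := h.hθ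
    have h3 := h.hell
    have h4 := h.hL
    by_contra hc
    push Not at hc
    nlinarith
  have hθ2 : θ ^ 2 ≤ 1 := by nlinarith
  have hrpos : (1 : ℝ) ≤ r := by
    have : p < r := h.hpr
    have : 1 ≤ r := by omega
    exact_mod_cast this
  have hell := h.hell
  have hrell : (1000 : ℝ) * r ≤ r * ell := by nlinarith
  have hθr : θ ^ 2 * (r * ell) ≤ r * ell := by
    have : 0 ≤ (r : ℝ) * ell := by positivity
    nlinarith
  have h1 : (N : ℝ) * (2 * r1 * L) ≤ r * ell / 32 := by nlinarith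
  nlinarith

theorem ncc : S_NCC := by
  intro n L ell e θ x p r N q l r1 F1 F2 f h
  refine le_trans ?_ (rhs_lower h)
  have hN := N_le h
  have hL := h.hL
  have hell := h.hell
  have hell2 := h.hell2
  have hN4 : (4 : ℝ) ≤ N := by exact_mod_cast h.hN4
  have hF1pos : (0 : ℝ) < F1 := by
    have := h.hF1'
    have h2 : 0 < exp (L - ell / 8) := exp_pos _
    linarith
  have hf2 : (F1 : ℝ) ≤ 128 * f * N ^ 2 := by exact_mod_cast h.hf2
  -- f ≥ r
  have hfr : (r : ℝ) ≤ f := by
    have h1 : exp (L - ell / 8) ≤ 2 * (128 * f * (8 * exp (ell / 4)) ^ 2) := by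
      calc exp (L - ell / 8) ≤ 2 * F1 := h.hF1'
        _ ≤ 2 * (128 * f * N ^ 2) := by linarith
        _ ≤ 2 * (128 * f * (8 * exp (ell / 4)) ^ 2) := by gcongr
    have h2 : (8 * exp (ell / 4)) ^ 2 = 64 * exp (ell / 2) := by
      rw [mul_pow, ← exp_nat_mul]
      norm_num
      ring
    rw [h2] at h1
    have h3 : exp (L - ell / 8) = exp (L - 3 / 4 * ell) * exp (ell / 8) * exp (ell / 2) := by
      rw [← exp_add, ← exp_add]; congr 1; ring
    have h4 : (16384 : ℝ) ≤ exp (ell / 8) := by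
      have h5 := Real.add_one_le_exp (ell / 16)
      have h6 : exp (ell / 8) = exp (ell / 16) * exp (ell / 16) := by
        rw [← exp_add]; congr 1; ring
      have h7 : exp (ell / 16) = exp (ell / 32) * exp (ell / 32) := by
        rw [← exp_add]; congr 1; ring
      have h8 := Real.add_one_le_exp (ell / 32)
      have h9 : (32 : ℝ) ≤ exp (ell / 32) := by linarith
      have h10 : (32 : ℝ) * 32 ≤ exp (ell / 16) := by rw [h7]; gcongr
      rw [h6]
      nlinarith
    have h5 : exp (L - 3 / 4 * ell) * 16384 * exp (ell / 2) ≤ 16384 * f * exp (ell / 2) := by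
      calc exp (L - 3 / 4 * ell) * 16384 * exp (ell / 2)
          ≤ exp (L - 3 / 4 * ell) * exp (ell / 8) * exp (ell / 2) := by gcongr
        _ ≤ 2 * (128 * f * (64 * exp (ell / 2))) := by rw [← h3]; exact h1
        _ = 16384 * f * exp (ell / 2) := by ring
    have h6 := le_of_mul_le_mul_right h5 (exp_pos _)
    have h7 := h.hr
    linarith
  -- base
  have hbase : 8 * (2 * N + 2 : ℝ) ^ 8 / F1 ≤ exp (-L / 2 - 1) := by
    have h1 : (2 * N + 2 : ℝ) ≤ 20 * exp (ell / 4) := by linarith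
    have h2 : (2 * N + 2 : ℝ) ^ 8 ≤ (20 * exp (ell / 4)) ^ 8 :=
      pow_le_pow_left₀ (by linarith) h1 _
    have h3 : (20 * exp (ell / 4)) ^ 8 = 20 ^ 8 * exp (2 * ell) := by
      rw [mul_pow, ← exp_nat_mul]
      congr 2
      push_cast
      ring
    have h20 : (20 : ℝ) ≤ exp 4 := by
      have h4 : (2.7 : ℝ) ≤ exp 1 := by have := Real.exp_one_gt_d9; linarith
      have h5 : exp 4 = exp 1 ^ 4 := by rw [← exp_nat_mul]; norm_num
      rw [h5]
      calc (20 : ℝ) ≤ 2.7 ^ 4 := by norm_num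
        _ ≤ exp 1 ^ 4 := by gcongr
    have h4 : (20 : ℝ) ^ 8 ≤ exp 32 := by
      have : exp 32 = exp 4 ^ 8 := by rw [← exp_nat_mul]; norm_num
      rw [this]; gcongr
    have h16 : (16 : ℝ) ≤ exp 4 := by linarith
    have h5 : exp (L - ell / 8) / 2 ≤ F1 := by have := h.hF1'; linarith
    have h5' : 0 < exp (L - ell / 8) / 2 := by positivity
    calc 8 * (2 * N + 2 : ℝ) ^ 8 / F1 ≤ 8 * (exp 32 * exp (2 * ell)) / (exp (L - ell / 8) / 2) := by
          gcongr
          calc (2 * N + 2 : ℝ) ^ 8 ≤ 20 ^ 8 * exp (2 * ell) := by rw [← h3]; exact h2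
            _ ≤ exp 32 * exp (2 * ell) := by gcongr
      _ = 16 * (exp 32 * exp (2 * ell) * exp (-(L - ell / 8))) := by
          rw [exp_neg]; field_simp; ring
      _ ≤ exp 4 * (exp 32 * exp (2 * ell) * exp (-(L - ell / 8))) := by gcongr
      _ = exp (4 + (32 + 2 * ell + (-(L - ell / 8)))) := by
          rw [exp_add, exp_add, exp_add]
      _ ≤ exp (-L / 2 - 1) := by
          apply exp_le_exp.mpr
          linarith
  have hb0 : 0 ≤ 8 * (2 * N + 2 : ℝ) ^ 8 / F1 := by positivity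
  have hrpos : (1 : ℝ) ≤ r := by
    have : p < r := h.hpr
    have : 1 ≤ r := by omega
    exact_mod_cast this
  have h2e : (2 : ℝ) ≤ exp 1 := by have := Real.exp_one_gt_d9; linarith
  calc 2 * (8 * (2 * N + 2 : ℝ) ^ 8 / F1) ^ f ≤ exp 1 * exp (-L / 2 - 1) ^ f := by gcongr
    _ = exp (1 + f * (-L / 2 - 1)) := by rw [exp_add, exp_nat_mul]
    _ ≤ exp (-((r : ℝ) * ell) / 30) := by
        apply exp_le_exp.mpr
        have h1 : (r : ℝ) * (L / 2 + 1) ≤ f * (L / 2 + 1) := by gcongr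
        have h2 : (r : ℝ) * ell ≤ r * L := by
          have : ell ≤ L := by linarith
          gcongr
        nlinarith

theorem nd : S_ND := by
  intro n L ell e θ x p r N q l r1 F1 F2 f h
  refine le_trans ?_ (rhs_lower h)
  have hell := h.hell
  have hn := h.hn
  have hnpos : (0 : ℝ) < n := by rw [← hn]; exact exp_pos _
  have h1 : 2 * (F1 : ℝ) / n ≤ 2 * exp (-(ell / 8)) := by
    rw [div_le_iff₀ hnpos, ← hn, mul_assoc, ← exp_add]
    have h2 := h.hF1
    have h3 : -(ell / 8) + L = L - ell / 8 := by ring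
    rw [h3]; linarith
  have h2 : Real.sqrt ((r : ℝ) / n) ≤ exp (-(3 / 8 * ell)) := by
    apply Real.sqrt_le_iff.mpr
    refine ⟨(exp_pos _).le, ?_⟩
    rw [div_le_iff₀ hnpos, ← hn, ← exp_nat_mul, ← exp_add]
    have h3 : ((2 : ℕ) : ℝ) * (-(3 / 8 * ell)) + L = L - 3 / 4 * ell := by push_cast; ring
    rw [h3]; exact h.hr
  have h3 : 2 * (F1 : ℝ) / n + 14 * Real.sqrt ((r : ℝ) / n) ≤ exp (-(ell / 10)) := by
    have h4 : exp (-(3 / 8 * ell)) ≤ exp (-(ell / 8)) := by
      apply exp_le_exp.mpr; linarith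
    have h5 : (16 : ℝ) ≤ exp (ell / 40) := by
      have := Real.add_one_le_exp (ell / 40)
      linarith
    have h6 : 16 * exp (-(ell / 8)) ≤ exp (-(ell / 10)) := by
      have : exp (-(ell / 10)) = exp (ell / 40) * exp (-(ell / 8)) := by
        rw [← exp_add]; congr 1; ring
      rw [this]; gcongr
    linarith
  calc (2 * (F1 : ℝ) / n + 14 * Real.sqrt ((r : ℝ) / n)) ^ r ≤ exp (-(ell / 10)) ^ r := by
        apply pow_le_pow_left₀ _ h3
        positivity
    _ = exp (r * (-(ell / 10))) := by rw [exp_nat_mul]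
    _ ≤ exp (-((r : ℝ) * ell) / 30) := by
        apply exp_le_exp.mpr
        have : (0 : ℝ) ≤ r * ell := by positivity
        linarith

end

end Pool.Agent.Helper22.LL
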